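import Pool.Agent.VMX.StmtsC
import Pool.Agent.Helper47_KT3.ATT

set_option autoImplicit false

open Matrix Filter Topology

namespace Pool.Agent.VMX.H77

open Pool.Agent.PFS Pool.Agent.PFJ Pool.Agent.NBT Pool.Agent.VMX

theorem norm_le_of_pm {n : ℕ} {C : Set (V n)} (hC : PCone C) : ∃ B : ℝ, 0 < B ∧
    ∀ (f e : V n) (r : ℝ), 0 ≤ r → r • f - e ∈ closure C → r • f + e ∈ closure C →
      ‖e‖ ≤ B * (r * ‖f‖) := by
  obtain ⟨B, hB, hn⟩ := hC.normal
  refine ⟨2 * B + 1, by linarith, ?_⟩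
  intro f e r hr h1 h2
  have h3 : (2 * r) • f - (r • f + e) ∈ closure C := by
    have e1 : (2 * r) • f - (r • f + e) = r • f - e := by module
    rw [e1]
    exact h1
  have h4 := hn _ _ h2 h3
  rw [norm_smul, Real.norm_of_nonneg (by linarith : (0 : ℝ) ≤ 2 * r)] at h4
  have h5 : ‖e‖ ≤ ‖r • f + e‖ + ‖r • f‖ := by
    have e2 : e = (r • f + e) - r • f := by abel
    calc ‖e‖ = ‖(r • f + e) - r • f‖ := by rw [← e2]
      _ ≤ _ := norm_sub_le _ _
  rw [norm_smul r f, Real.norm_of_nonneg hr] at h5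
  calc ‖e‖ ≤ ‖r • f + e‖ + r * ‖f‖ := h5
    _ ≤ B * (2 * r * ‖f‖) + r * ‖f‖ := by linarith
    _ = (2 * B + 1) * (r * ‖f‖) := by ring

theorem atd : AtdStmt := by
  intro n C hC L f a φ H ε hε hε' hfL hfC haL haC hfa hφ hφa hφf HL HC h1 h2 hbd hcon
  obtain ⟨ξ, x, lam, ξ0, ξs, ξb, ξx, hl1, hl2, heig⟩ := KT3.H47.att n C hC L f a φ H ε hε hε' hfL
    hfC haL haC hfa hφ hφa hφf HL HC h1 h2 hcon
  have hlam : 0 < lam := by linarith
  have hφc : Continuous φ := φ.continuous_of_finiteDimensional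
  have xL : x ∈ L := (Submodule.closed_of_finiteDimensional L).mem_of_tendsto ξx
    (Eventually.of_forall fun j => (ξb j).1)
  have φx : φ x = 1 := by
    have t1 := (hφc.tendsto x).comp ξx
    refine tendsto_nhds_unique t1 (tendsto_const_nhds.congr fun j => ?_)
    exact ((ξb j).2.1).symm
  have xa1 : (10 * ε) • f - (x - a) ∈ closure C :=
    isClosed_closure.mem_of_tendsto (tendsto_const_nhds.sub (ξx.sub tendsto_const_nhds))
      (Eventually.of_forall fun j => (ξb j).2.2.1)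
  have xa2 : (10 * ε) • f + (x - a) ∈ closure C :=
    isClosed_closure.mem_of_tendsto (tendsto_const_nhds.add (ξx.sub tendsto_const_nhds))
      (Eventually.of_forall fun j => (ξb j).2.2.2)
  have ξcl : ∀ j, ξ j ∈ closure C := by
    intro j
    induction j with
    | zero => rw [ξ0]; exact haC
    | succ j ih =>
      rw [(ξs j).2]
      exact hC.cl_smul (HC _ ih) (inv_nonneg.2 (ξs j).1.le)
  have xcl : x ∈ closure C :=
    isClosed_closure.mem_of_tendsto ξx (Eventually.of_forall ξcl)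
  have x2f : (2 : ℝ) • f - x ∈ closure C := by
    have e : (2 : ℝ) • f - x = ((10 * ε) • f - (x - a)) + ((f - a) + (1 - 10 * ε) • f) := by
      module
    rw [e]
    exact hC.cl_add xa1 (hC.cl_add hfa (hC.cl_smul hfC (by linarith)))
  have hcx : ∀ c ρ : ℝ, |c| ≤ ρ → (2 * ρ) • f + c • x ∈ closure C := by
    intro c ρ hc
    have hρ : 0 ≤ ρ := (abs_nonneg c).trans hc
    rcases le_total 0 c with h | h
    · exact hC.cl_add (hC.cl_smul hfC (by linarith)) (hC.cl_smul xcl h)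
    · have e : (2 * ρ) • f + c • x = (-c) • ((2 : ℝ) • f - x) + (2 * ρ + 2 * c) • f := by
        module
      rw [e]
      have : -c ≤ ρ := by rwa [abs_of_nonpos h] at hc
      exact hC.cl_add (hC.cl_smul x2f (by linarith)) (hC.cl_smul hfC (by linarith))
  have step : ∀ e ∈ L, φ e = 0 → ∀ r : ℝ, 0 ≤ r → r • f - e ∈ closure C →
      r • f + e ∈ closure C → |φ (H e)| ≤ r / 100 ∧
      (3 / 100 * r) • f - (H e - φ (H e) • x) ∈ closure C ∧
      (3 / 100 * r) • f + (H e - φ (H e) • x) ∈ closure C := by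
    intro e he he0 r hr g1 g2
    obtain ⟨g3, g4⟩ := hcon e he r hr he0 g1 g2
    have g5 := hφ _ g3
    have g6 := hφ _ g4
    rw [map_sub, map_smul, hφf, smul_eq_mul, mul_one] at g5
    rw [map_add, map_smul, hφf, smul_eq_mul, mul_one] at g6
    have g7 : |φ (H e)| ≤ r / 100 := abs_le.2 ⟨by linarith, by linarith⟩
    refine ⟨g7, ?_, ?_⟩
    · have e1 : (3 / 100 * r) • f - (H e - φ (H e) • x) =
          ((r / 100) • f - H e) + ((2 * (r / 100)) • f + φ (H e) • x) := by module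
      rw [e1]
      exact hC.cl_add g3 (hcx _ _ g7)
    · have e1 : (3 / 100 * r) • f + (H e - φ (H e) • x) =
          ((r / 100) • f + H e) + ((2 * (r / 100)) • f + (-φ (H e)) • x) := by module
      rw [e1]
      exact hC.cl_add g4 (hcx _ _ (by rw [abs_neg]; exact g7))
  have hrec : ∀ (u : V n) (m : ℕ), (H ^ (m + 1)) u = H ((H ^ m) u) := by
    intro u m
    rw [pow_succ']
    rfl
  have hpL : ∀ u ∈ L, ∀ m : ℕ, (H ^ m) u ∈ L := by
    intro u hu m
    induction m with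
    | zero => exact hu
    | succ m ih => rw [hrec]; exact HL _ ih
  have hpC : ∀ u ∈ closure C, ∀ m : ℕ, (H ^ m) u ∈ closure C := by
    intro u hu m
    induction m with
    | zero => exact hu
    | succ m ih => rw [hrec]; exact HC _ ih
  have eL : ∀ u ∈ L, ∀ m : ℕ, (H ^ m) u - φ ((H ^ m) u) • x ∈ L := fun u hu m =>
    Submodule.sub_mem _ (hpL u hu m) (Submodule.smul_mem _ _ xL)
  have eφ : ∀ (u : V n) (m : ℕ), φ ((H ^ m) u - φ ((H ^ m) u) • x) = 0 := by
    intro u m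
    rw [map_sub, map_smul, φx, smul_eq_mul, mul_one, sub_self]
  have He : ∀ (u : V n) (m : ℕ), H ((H ^ m) u - φ ((H ^ m) u) • x) =
      (H ^ (m + 1)) u - (φ ((H ^ m) u) * lam) • x := by
    intro u m
    rw [map_sub, map_smul, heig, smul_smul, hrec]
  have φHe : ∀ (u : V n) (m : ℕ), φ (H ((H ^ m) u - φ ((H ^ m) u) • x)) =
      φ ((H ^ (m + 1)) u) - φ ((H ^ m) u) * lam := by
    intro u m
    rw [He, map_sub, map_smul, φx, smul_eq_mul, mul_one]
  have erec : ∀ (u : V n) (m : ℕ), H ((H ^ m) u - φ ((H ^ m) u) • x) -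
      φ (H ((H ^ m) u - φ ((H ^ m) u) • x)) • x =
      (H ^ (m + 1)) u - φ ((H ^ (m + 1)) u) • x := by
    intro u m
    rw [φHe, He]
    module
  have main : ∀ u ∈ L, ∀ r : ℝ, 0 ≤ r → r • f - (u - φ u • x) ∈ closure C →
      r • f + (u - φ u • x) ∈ closure C → ∀ m : ℕ,
      ((3 / 100) ^ m * r) • f - ((H ^ m) u - φ ((H ^ m) u) • x) ∈ closure C ∧
      ((3 / 100) ^ m * r) • f + ((H ^ m) u - φ ((H ^ m) u) • x) ∈ closure C := by
    intro u hu r hr g1 g2 m
    induction m with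
    | zero =>
      rw [pow_zero, one_mul]
      exact ⟨g1, g2⟩
    | succ m ih =>
      obtain ⟨-, g3, g4⟩ := step _ (eL u hu m) (eφ u m) _ (by positivity) ih.1 ih.2
      rw [erec] at g3 g4
      have e : (3 / 100 : ℝ) ^ (m + 1) * r = 3 / 100 * ((3 / 100) ^ m * r) := by
        rw [pow_succ]
        ring
      rw [e]
      exact ⟨g3, g4⟩
  have hli : lam⁻¹ ≤ 2 := by
    rw [inv_le_comm₀ hlam (by norm_num)]
    linarith
  have hli0 : 0 < lam⁻¹ := inv_pos.2 hlam
  have cau : ∀ u ∈ L, ∀ r : ℝ, 0 ≤ r → r • f - (u - φ u • x) ∈ closure C →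
      r • f + (u - φ u • x) ∈ closure C → ∀ m : ℕ,
      dist ((lam⁻¹) ^ m * φ ((H ^ m) u)) ((lam⁻¹) ^ (m + 1) * φ ((H ^ (m + 1)) u)) ≤
        (2 * r / 100) * (6 / 100) ^ m := by
    intro u hu r hr g1 g2 m
    obtain ⟨g3, g4⟩ := main u hu r hr g1 g2 m
    obtain ⟨g5, -, -⟩ := step _ (eL u hu m) (eφ u m) _ (by positivity) g3 g4
    rw [φHe] at g5
    rw [dist_comm, Real.dist_eq]
    have e : (lam⁻¹) ^ (m + 1) * φ ((H ^ (m + 1)) u) - (lam⁻¹) ^ m * φ ((H ^ m) u) =
        (lam⁻¹) ^ (m + 1) * (φ ((H ^ (m + 1)) u) - φ ((H ^ m) u) * lam) := by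
      rw [mul_sub, pow_succ]
      field_simp
    rw [e, abs_mul, abs_of_pos (pow_pos hli0 _)]
    calc (lam⁻¹) ^ (m + 1) * |φ ((H ^ (m + 1)) u) - φ ((H ^ m) u) * lam|
        ≤ 2 ^ (m + 1) * ((3 / 100) ^ m * r / 100) :=
          mul_le_mul (pow_le_pow_left₀ hli0.le hli _) g5 (abs_nonneg _) (by positivity)
      _ = (2 * r / 100) * (6 / 100) ^ m := by
          have : (6 / 100 : ℝ) ^ m = 2 ^ m * (3 / 100) ^ m := by
            rw [← mul_pow]
            norm_num
          rw [this, pow_succ]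
          ring
  have hr0 : ∀ u ∈ L, ∃ r : ℝ, 0 ≤ r ∧ r • f - (u - φ u • x) ∈ closure C ∧
      r • f + (u - φ u • x) ∈ closure C := fun u hu =>
    hbd _ (Submodule.sub_mem _ hu (Submodule.smul_mem _ _ xL))
  have hex : ∀ u : L, ∃ l : ℝ, Tendsto (fun m : ℕ => (lam⁻¹) ^ m * φ ((H ^ m) (u : V n))) atTop
      (𝓝 l) := by
    intro u
    obtain ⟨r, hr, g1, g2⟩ := hr0 u u.2
    exact cauchySeq_tendsto_of_complete
      (cauchySeq_of_le_geometric _ _ (by norm_num) (cau u u.2 r hr g1 g2))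
  choose ψ1 hψ1 using hex
  let G : ℕ → L →ₗ[ℝ] ℝ := fun m => ((lam⁻¹) ^ m) • (φ ∘ₗ (H ^ m) ∘ₗ L.subtype)
  have hG : Tendsto (fun m (u : L) => G m u) atTop (𝓝 ψ1) := by
    rw [tendsto_pi_nhds]
    intro u
    exact hψ1 u
  let ψ0 : L →ₗ[ℝ] ℝ := linearMapOfTendsto ψ1 G hG
  obtain ⟨ψ, hψ⟩ := LinearMap.exists_extend ψ0
  have hψu : ∀ u (hu : u ∈ L), ψ u = ψ1 ⟨u, hu⟩ := by
    intro u hu
    have := LinearMap.congr_fun hψ ⟨u, hu⟩
    exact this
  have hlim : ∀ u ∈ L, Tendsto (fun m : ℕ => (lam⁻¹) ^ m * φ ((H ^ m) u)) atTop (𝓝 (ψ u)) := by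
    intro u hu
    rw [hψu u hu]
    exact hψ1 ⟨u, hu⟩
  obtain ⟨B, hB, hn⟩ := norm_le_of_pm hC
  refine ⟨x, lam, ψ, ⟨xL, xcl, heig, hlam, ?_, ?_, HL, ?_⟩, φx, hl1, hl2, ?_, xa1, xa2⟩
  · have hx : ∀ m : ℕ, (H ^ m) x = lam ^ m • x := by
      intro m
      induction m with
      | zero => rw [pow_zero, pow_zero, one_smul]; rfl
      | succ m ih => rw [hrec, ih, map_smul, heig, smul_smul, pow_succ]
    refine tendsto_nhds_unique (hlim x xL) (tendsto_const_nhds.congr fun m => ?_)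
    rw [hx, map_smul, φx, smul_eq_mul, mul_one, ← mul_pow, inv_mul_cancel₀ hlam.ne', one_pow]
  · intro u hu huC
    refine ge_of_tendsto' (hlim u hu) (fun m => ?_)
    exact mul_nonneg (pow_nonneg hli0.le _) (hφ _ (hpC u huC m))
  · intro u hu
    obtain ⟨r, hr, g1, g2⟩ := hr0 u hu
    have t1 : Tendsto (fun m : ℕ => (lam⁻¹) ^ m • ((H ^ m) u - φ ((H ^ m) u) • x)) atTop
        (𝓝 0) := by
      have t2 : Tendsto (fun m : ℕ => (B * (r * ‖f‖)) * (6 / 100 : ℝ) ^ m) atTop (𝓝 0) := by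
        have := (tendsto_pow_atTop_nhds_zero_of_lt_one (r := (6 / 100 : ℝ)) (by norm_num)
          (by norm_num)).const_mul (B * (r * ‖f‖))
        rwa [mul_zero] at this
      refine squeeze_zero_norm (fun m => ?_) t2
      obtain ⟨g3, g4⟩ := main u hu r hr g1 g2 m
      have g5 := hn f _ _ (by positivity) g3 g4
      rw [norm_smul, Real.norm_of_nonneg (pow_nonneg hli0.le _)]
      calc (lam⁻¹) ^ m * ‖(H ^ m) u - φ ((H ^ m) u) • x‖
          ≤ 2 ^ m * (B * ((3 / 100) ^ m * r * ‖f‖)) :=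
            mul_le_mul (pow_le_pow_left₀ hli0.le hli _) g5 (norm_nonneg _) (by positivity)
        _ = (B * (r * ‖f‖)) * (6 / 100) ^ m := by
            have : (6 / 100 : ℝ) ^ m = 2 ^ m * (3 / 100) ^ m := by
              rw [← mul_pow]
              norm_num
            rw [this]
            ring
    have t3 := t1.add ((hlim u hu).smul_const x)
    rw [zero_add] at t3
    refine t3.congr (fun m => ?_)
    rw [smul_sub, smul_smul]
    abel
  · have hpa : (10 * ε) • f - (a - φ a • x) ∈ closure C := by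
      have e : (10 * ε) • f - (a - φ a • x) = (10 * ε) • f + (x - a) := by
        rw [hφa]
        module
      rw [e]
      exact xa2
    have hma : (10 * ε) • f + (a - φ a • x) ∈ closure C := by
      have e : (10 * ε) • f + (a - φ a • x) = (10 * ε) • f - (x - a) := by
        rw [hφa]
        module
      rw [e]
      exact xa1
    have hd := dist_le_of_le_geometric_of_tendsto₀ _ _ (by norm_num)
      (cau a haL (10 * ε) (by linarith) hpa hma) (hlim a haL)
    have e0 : (lam⁻¹) ^ 0 * φ ((H ^ 0) a) = 1 := by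
      rw [pow_zero, one_mul, pow_zero]
      exact hφa
    rw [e0, Real.dist_eq, abs_le] at hd
    have : 2 * (10 * ε) / 100 / (1 - 6 / 100) ≤ 1 / 2 := by
      rw [div_le_iff₀ (by norm_num)]
      linarith
    linarith [hd.2]

end Pool.Agent.VMX.H77
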