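import Pool.Agent.VMX.StmtsB

set_option autoImplicit false

open Matrix Filter Topology

namespace Pool.Agent.VMX.H77

open Pool.Agent.PFS Pool.Agent.PFJ Pool.Agent.NBT Pool.Agent.VMX

theorem scale_upd {n K : ℕ} {C : Set (V n)} {Γ Γ₀ : Subgroup (GL (Fin n) ℝ)}
    {F : (Fin K → V n) → Prop} (hF : FAM C Γ Γ₀ F) (z : Fin K → V n) (p : Fin K) (q : V n)
    {a : ℝ} (ha : 0 < a) (h : F (Function.update z p q)) : F (Function.update z p (a • q)) := by
  have h1 := hF.scl _ h (fun i => if i = p then a else 1) (fun i => by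
    split_ifs
    · exact ha
    · exact one_pos)
  have e : (fun i => (if i = p then a else 1) • Function.update z p q i) =
      Function.update z p (a • q) := by
    funext i
    by_cases hi : i = p
    · rw [if_pos hi, hi, Function.update_self, Function.update_self]
    · rw [if_neg hi, one_smul, Function.update_of_ne hi, Function.update_of_ne hi]
  rw [e] at h1
  exact h1

theorem scale_dm {n : ℕ} {C : Set (V n)} (hC : PCone C) {q y : V n} {a : ℝ} (ha : 0 < a)
    (h : Dm C q y) : Dm C (a • q) y := by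
  obtain ⟨M, hM, h1⟩ := h
  refine ⟨a * M, mul_pos ha hM, ?_⟩
  have e : (a * M) • y - a • q = a • (M • y - q) := by rw [smul_sub, smul_smul]
  rw [e]
  exact hC.cl_smul h1 ha.le

theorem pes_omit {n K : ℕ} {C : Set (V n)} {w : Fin K → V n} (hw : PES C w) (l : Fin K) :
    fS w {l}ᶜ ∉ C := by
  have h := hw.bd (fun i => if i = l then 0 else 1) (fun i => by
    split_ifs
    · exact le_refl _
    · exact zero_le_one) ⟨l, if_pos rfl⟩
  have e : ∑ i, (if i = l then (0 : ℝ) else 1) • w i = fS w {l}ᶜ := by
    unfold fS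
    rw [← Finset.sum_subset (Finset.subset_univ ({l}ᶜ : Finset (Fin K)))]
    · refine Finset.sum_congr rfl (fun i hi => ?_)
      rw [Finset.mem_compl, Finset.mem_singleton] at hi
      rw [if_neg hi, one_smul]
    · intro i _ hi
      rw [Finset.mem_compl, Finset.mem_singleton, not_not] at hi
      rw [if_pos hi, zero_smul]
  rw [e] at h
  exact h

theorem fS_upd_compl {n K : ℕ} (z : Fin K → V n) (p l : Fin K) (hl : l ≠ p) (y : V n) :
    fS (Function.update z p y) {l}ᶜ = y + fS z {p, l}ᶜ := by
  have hsub : ({p} : Finset (Fin K)) ⊆ {l}ᶜ := by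
    intro i hi
    rw [Finset.mem_singleton] at hi
    rw [Finset.mem_compl, Finset.mem_singleton, hi]
    exact hl.symm
  have h1 := fS_add_sdiff (Function.update z p y) hsub
  have h2 : ({l}ᶜ \ {p} : Finset (Fin K)) = {p, l}ᶜ := by
    ext i
    simp only [Finset.mem_sdiff, Finset.mem_compl, Finset.mem_singleton, Finset.mem_insert]
    tauto
  have h3 : p ∉ ({p, l}ᶜ : Finset (Fin K)) := by
    simp
  rw [h2, fS_single, Function.update_self, fS_update z p y h3] at h1
  exact h1.symm

theorem notmem_of_dm {n K : ℕ} {C : Set (V n)} (hC : PCone C) (z : Fin K → V n) (p l : Fin K)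
    (hl : l ≠ p) (y : V n) (hw : PES C (Function.update z p y))
    (hcl : ∀ i, Function.update z p y i ∈ closure C) (S : Finset (Fin K)) (hS : l ∉ S)
    (q q' : V n) (hq : Dm C q (fS (Function.update z p y) S))
    (hq' : Dm C q' (fS (Function.update z p y) S)) : q + q' + fS z {p, l}ᶜ ∉ C := by
  intro hcon
  obtain ⟨M1, hM1, h1⟩ := hq
  obtain ⟨M2, hM2, h2⟩ := hq'
  have hY := pes_omit hw l
  have hsub : S ⊆ {l}ᶜ := by
    intro i hi
    rw [Finset.mem_compl, Finset.mem_singleton]
    rintro rfl
    exact hS hi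
  have h3 := fS_add_sdiff (Function.update z p y) hsub
  have h4 := fS_upd_compl z p l hl y
  have h5 : fS (Function.update z p y) ({l}ᶜ \ S) ∈ closure C := fS_cl hC hcl _
  have h6 : y ∈ closure C := by
    have := hcl p
    rwa [Function.update_self] at this
  set Y := fS (Function.update z p y) {l}ᶜ with hYd
  set A := fS (Function.update z p y) S with hAd
  set B := fS (Function.update z p y) ({l}ᶜ \ S) with hBd
  set P := fS z {p, l}ᶜ with hPd
  have h7 : (M1 + M2 + 1) • Y - (q + q' + P) ∈ closure C := by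
    have e : (M1 + M2 + 1) • Y - (q + q' + P) =
        ((M1 • A - q) + (M2 • A - q')) + ((M1 + M2) • B + y) := by
      have e1 : B = Y - A := by rw [← h3]; abel
      have e2 : y = Y - P := by rw [h4]; abel
      rw [e1, e2]
      module
    rw [e]
    exact hC.cl_add (hC.cl_add h1 h2) (hC.cl_add (hC.cl_smul h5 (by linarith)) h6)
  have h8 : (M1 + M2 + 1) • Y ∈ C := hC.mem_of_le hcon h7
  exact hY ((hC.smul_iff (by linarith)).1 h8)

theorem sqr (zfe : ZfeStmt) (fmc : FmcStmt) (trp : TrpStmt) (aln : AlnStmt) : SqrStmt := by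
  intro n C Γ Γ₀ K p J c F hSL z hz j hjp hjJ h hh x hx
  have hCC := hSL.cc
  have hC : PCone C := hCC.toPCone
  have hA := fun z' (hz' : F z') x' => aln n C Γ Γ₀ K p J c F hSL z' hz' x'
  have hcl : ∀ w, F w → ∀ i, w i ∈ closure C := fun w hw i =>
    hCC.hul.lamCl _ ((hSL.pes w hw).2 i)
  have hzh : F (Function.update z p h) := hh.1
  refine ⟨?_, ?_, ?_⟩
  · induction hx with
    | base a ha =>
      refine ⟨h, ⟨?_, ?_⟩, ?_⟩
      · rw [Function.update_idem]
        exact hh.1
      · rw [Function.update_self, Function.update_of_ne hjp]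
        obtain ⟨M, hM, h1⟩ := hh.2
        refine ⟨M + M / a, by positivity, ?_⟩
        have e : (M + M / a) • (a • z p + z j) - h =
            (M • (z p + z j) - h) + ((M * a) • z p + (M / a) • z j) := by
          have e1 : (M / a) • (a • z p) = M • z p := by
            rw [smul_smul, div_mul_cancel₀ _ ha.ne']
          rw [add_smul, smul_add (M / a), e1, smul_add, smul_smul, smul_add]
          abel
        rw [e]
        exact hC.cl_add h1 (hC.cl_add (hC.cl_smul (hcl z hz p) (by positivity))
          (hC.cl_smul (hcl z hz j) (by positivity)))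
      · have := Rc.base (C := C) (F := F) (p := p) (J := J) (z := Function.update z p h) 1 one_pos
        rwa [one_smul, Function.update_self] at this
    | step x x' m hm hx hT ih =>
      obtain ⟨q, hq1, hq2⟩ := ih
      have hz' : F (Function.update z p x) := ((hA z hz x).1 hx).1
      have hpm : m ≠ p := by
        rintro rfl
        exact hSL.pJ hm
      have hjm : j ≠ m := by
        rintro rfl
        exact hjJ hm
      have hne1 : ({p, m}ᶜ : Finset (Fin K)).Nonempty := by
        rw [← Finset.card_pos, Finset.card_compl, Finset.card_pair hpm.symm, Fintype.card_fin]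
        have := hSL.three
        omega
      have hne2 : ({p, m}ᶜᶜ : Finset (Fin K)).Nonempty := by
        rw [compl_compl]
        exact ⟨p, Finset.mem_insert_self _ _⟩
      obtain ⟨φ, g, s, T, L, -, hg, hZ, -⟩ := zfe n C Γ Γ₀ hCC K F hSL.toFAM _ hz' {p, m}ᶜ hne1
        hne2 (fun k => (k : ℝ)) tendsto_natCast_atTop_atTop
      obtain ⟨ψ, -, -, -, -, -, hψ, -⟩ := trp n C Γ Γ₀ K p J c F hSL _ hz' m hm _ g s T L hg hZ
        j q hjp hjm hq1.1 hq1.2
      obtain ⟨t1, t2⟩ := hψ x' hT
      refine ⟨ψ x', ⟨?_, ?_⟩, ?_⟩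
      · have := t1.1
        rw [Function.update_idem, Function.update_idem] at this
        rw [Function.update_idem]
        exact this
      · rw [Function.update_of_ne hjp] at t2
        rw [Function.update_self, Function.update_of_ne hjp]
        exact t2
      · refine Rc.step q (ψ x') m hm hq2 ?_
        rw [Function.update_idem]
        rw [Function.update_idem] at t1
        exact t1
  · intro q q' hq hq'
    obtain ⟨⟨a1, a2⟩, a3⟩ := hq
    obtain ⟨⟨b1, b2⟩, b3⟩ := hq'
    rw [Function.update_idem] at a1 b1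
    have hzx : F (Function.update z p x) := ((hA z hz x).1 hx).1
    have a4 := ((hA _ hzh q).1 a3).2
    have b4 := ((hA _ hzh q').1 b3).2
    obtain ⟨-, -, -, -, -, f6, -⟩ := fmc n C Γ hCC K hSL.three hSL.maxc z p (hSL.pes z hz)
    refine f6 q q' (hSL.pes _ a1) (hSL.pes _ b1) (fun l hl => ?_)
    by_cases hlj : l = j
    · refine notmem_of_dm hC z p l hl h (hSL.pes _ hzh).1 (hcl _ hzh) (insert p J) ?_ q q' a4 b4
      rw [Finset.mem_insert, hlj]
      rintro (h0 | h0)
      · exact hjp h0
      · exact hjJ h0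
    · refine notmem_of_dm hC z p l hl x (hSL.pes _ hzx).1 (hcl _ hzx) {p, j} ?_ q q' ?_ ?_
      · rw [Finset.mem_insert, Finset.mem_singleton]
        rintro (h0 | h0)
        · exact hl h0
        · exact hlj h0
      · rw [fS_pair _ hjp.symm]
        exact a2
      · rw [fS_pair _ hjp.symm]
        exact b2
  · intro q a ha hq
    obtain ⟨⟨a1, a2⟩, a3⟩ := hq
    obtain ⟨b1, b2⟩ := (hA _ hzh q).1 a3
    refine ⟨⟨scale_upd hSL.toFAM _ p q ha a1, scale_dm hC ha a2⟩, ?_⟩
    rw [hA _ hzh]
    exact ⟨scale_upd hSL.toFAM _ p q ha b1, scale_dm hC ha b2⟩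

end Pool.Agent.VMX.H77
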