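import Pool.Agent.VMX.StmtsA

set_option autoImplicit false

open Matrix Filter Topology

namespace Pool.Agent.VMX.H77

open Pool.Agent.PFS Pool.Agent.PFJ Pool.Agent.NBT Pool.Agent.VMX

/-- The main limit. -/
theorem keyseq {n : ℕ} {C : Set (V n)} {Γ : Subgroup (GL (Fin n) ℝ)} {u R : V n} {θ : ℕ → ℝ}
    {g : ℕ → GL (Fin n) ℝ} {s : ℕ → ℝ} {T L : V n →ₗ[ℝ] V n} (h : Zp C Γ u R θ g s T L)
    {a : V n} (ha : a ∈ sF C u) (b : V n) :
    Tendsto (fun k => s k • act (g k) (Real.exp (θ k) • a + b)) atTop (𝓝 (L a + T b)) := by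
  have h1 := h.limL (fun _ => a) a (fun _ => ha) tendsto_const_nhds
  have h2 := h.limT (fun _ => b) b tendsto_const_nhds
  refine (h1.add h2).congr (fun k => ?_)
  rw [CC.act_add, CC.act_smul, smul_add, smul_smul]

theorem zpf : ZpfStmt := by
  intro n C Γ hC u R hu hR θ g s T L h
  have hp : PCone C := hC.toPCone
  have huF : u ∈ sF C u := (fcs n C hp u hu).1.1
  -- (1)
  have c1 : ∀ x ∈ closure C, T x ∈ closure C := by
    intro x hx
    refine isClosed_closure.mem_of_tendsto (h.limT (fun _ => x) x tendsto_const_nhds)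
      (Eventually.of_forall fun k => ?_)
    exact (hC.sact_cl_iff (h.mem k) (h.pos k)).2 hx
  -- (2)
  have hexp : Tendsto (fun k => Real.exp (-θ k)) atTop (𝓝 0) :=
    Real.tendsto_exp_neg_atTop_nhds_zero.comp h.inf
  have c2 : T u = 0 := by
    have t1 := h.limT (fun _ => u) u tendsto_const_nhds
    have t2 := h.limL (fun _ => u) u (fun _ => huF) tendsto_const_nhds
    have t3 := hexp.smul t2
    rw [zero_smul] at t3
    refine tendsto_nhds_unique t1 (t3.congr (fun k => ?_))
    rw [smul_smul]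
    congr 1
    rw [mul_comm (s k), ← mul_assoc, ← Real.exp_add, neg_add_cancel, Real.exp_zero, one_mul]
  have hq := h.sum
  have hev : ∀ {a : V n}, a ∈ sF C u → ∀ b : V n, L a + T b ∈ C →
      ∀ᶠ k in atTop, Real.exp (θ k) • a + b ∈ C := by
    intro a ha b hab
    filter_upwards [(keyseq h ha b).eventually (hp.isOpen.mem_nhds hab)] with k hk
    exact (hC.sact_mem_iff (h.mem k) (h.pos k)).1 hk
  have huR : u + R ∈ C := by
    obtain ⟨k, hk1, hk2⟩ := ((hev huF R hq).and (h.inf.eventually_ge_atTop 0)).exists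
    have he : 1 ≤ Real.exp (θ k) := Real.one_le_exp hk2
    have h3 : Real.exp (θ k) • (u + R) ∈ C := by
      have e : Real.exp (θ k) • (u + R) =
          (Real.exp (θ k) • u + R) + (Real.exp (θ k) - 1) • R := by
        rw [smul_add, sub_smul, one_smul]
        abel
      rw [e]
      exact hp.add_cl hk1 (hp.cl_smul hR (by linarith))
    exact (hp.smul_iff (Real.exp_pos _)).1 h3
  -- (6)
  have c6 : ∀ v ∈ sF C u, ∀ κ : ℝ, L v + κ • T R ∈ closure C → v ∈ closure C := by
    intro v hv κ hvk
    refine cl_of_eps (f := u) (fun ε hε => ?_)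
    have hmem : v + ε • u ∈ sF C u := Submodule.add_mem _ hv (Submodule.smul_mem _ _ huF)
    have h1 : L (v + ε • u) + T ((κ + ε) • R) ∈ C := by
      have e : L (v + ε • u) + T ((κ + ε) • R) = (L v + κ • T R) + ε • (L u + T R) := by
        rw [map_add, map_smul, map_smul, add_smul, smul_add]
        abel
      rw [e]
      exact hp.cl_add' hvk (hp.smul _ hq ε hε)
    have h2 := hev hmem _ h1
    have h3 : Tendsto (fun k => (v + ε • u) + Real.exp (-θ k) • ((κ + ε) • R)) atTop
        (𝓝 ((v + ε • u) + (0 : ℝ) • ((κ + ε) • R))) :=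
      tendsto_const_nhds.add (hexp.smul_const _)
    rw [zero_smul, add_zero] at h3
    refine isClosed_closure.mem_of_tendsto h3 ?_
    filter_upwards [h2] with k hk
    have h4 : Real.exp (-θ k) • (Real.exp (θ k) • (v + ε • u) + (κ + ε) • R) ∈ C :=
      hp.smul _ hk _ (Real.exp_pos _)
    rw [smul_add, smul_smul, ← Real.exp_add, neg_add_cancel, Real.exp_zero, one_smul] at h4
    exact subset_closure h4
  have c5 : ∀ v ∈ sF C u, (L v ∈ closure C ↔ v ∈ closure C) := by
    intro v hv
    constructor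
    · intro h1
      refine c6 v hv 0 ?_
      rw [zero_smul, add_zero]
      exact h1
    · intro h1
      refine isClosed_closure.mem_of_tendsto (h.limL (fun _ => v) v (fun _ => hv)
        tendsto_const_nhds) (Eventually.of_forall fun k => ?_)
      exact (hC.sact_cl_iff (h.mem k) (mul_pos (h.pos k) (Real.exp_pos _))).2 h1
  have hul := hC.hul
  have notC : ∀ (y : ℕ → V n) (y0 : V n), (∀ m, y m ∉ C) → Tendsto y atTop (𝓝 y0) → y0 ∉ C := by
    intro y y0 hy ht h0
    obtain ⟨k, hk⟩ := (ht.eventually (hp.isOpen.mem_nhds h0)).exists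
    exact hy k hk
  refine ⟨c1, c2, ?_, ?_, c5, c6, ?_, ?_, ?_, ?_⟩
  · intro x
    obtain ⟨M, hM, h1, h2⟩ := absorb_two hp huR x
    refine ⟨M, hM, ?_, ?_⟩
    · have h3 := c1 _ (subset_closure h1)
      rw [map_sub, map_smul, map_add, c2, zero_add] at h3
      exact h3
    · have h3 := c1 _ (subset_closure h2)
      rw [map_add, map_smul, map_add, c2, zero_add] at h3
      exact h3
  · intro v hv ε hε
    have h1 : L (ε • u) + T (v + ε • R) ∈ C := by
      have e : L (ε • u) + T (v + ε • R) = T v + ε • (L u + T R) := by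
        rw [map_smul, map_add, map_smul, smul_add]
        abel
      rw [e]
      exact hp.cl_add' hv (hp.smul _ hq ε hε)
    obtain ⟨k, hk⟩ := (hev (Submodule.smul_mem _ ε huF) _ h1).exists
    refine ⟨Real.exp (θ k) * ε, mul_pos (Real.exp_pos _) hε, ?_⟩
    rw [smul_smul, add_comm] at hk
    exact subset_closure hk
  · intro a ha b hab h0
    refine notC _ _ (fun k => ?_) (keyseq h ha b) h0
    rw [hC.sact_mem_iff (h.mem k) (h.pos k)]
    exact hab _ (Real.exp_pos _)
  · intro a ha haL
    have hne : L a ≠ 0 := by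
      intro h0
      have h1 : a ∈ closure C := by
        rw [← c5 a ha, h0]
        exact hp.zero_cl
      have h2 : -a ∈ closure C := by
        rw [← c5 (-a) (Submodule.neg_mem _ ha), map_neg, h0, neg_zero]
        exact hp.zero_cl
      exact hul.lamNe a haL (hp.salient a h1 h2)
    have hmem : ∀ k, (s k * Real.exp (θ k)) • act (g k) a ∈ LamC C Γ := fun k =>
      hul.lamSmul _ (hul.lamAct a haL _ (h.mem k)) _ (mul_pos (h.pos k) (Real.exp_pos _))
    have ht := h.limL (fun _ => a) a (fun _ => ha) tendsto_const_nhds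
    exact H37.cloF n C Γ hC _ _ (fun k => hul.lamHull _ (hmem k)) ht
      (notC _ _ (fun k => hul.lamNot _ (hmem k)) ht) hne
  · intro b hb hne
    have hmem : ∀ k, s k • act (g k) b ∈ LamC C Γ := fun k =>
      hul.lamSmul _ (hul.lamAct b hb _ (h.mem k)) _ (h.pos k)
    have ht := h.limT (fun _ => b) b tendsto_const_nhds
    exact H37.cloF n C Γ hC _ _ (fun k => hul.lamHull _ (hmem k)) ht
      (notC _ _ (fun k => hul.lamNot _ (hmem k)) ht) hne
  · intro b hb hbH hne hnC
    have hmem : ∀ k, s k • act (g k) b ∈ Hull C Γ := fun k =>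
      hul.smul _ (hul.act b hbH _ (h.mem k)) _ (h.pos k)
    have ht := h.limT (fun _ => b) b tendsto_const_nhds
    exact H37.cloF n C Γ hC _ _ hmem ht hnC hne

end Pool.Agent.VMX.H77
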